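import Mathlib
import Pool.Agent.Work.MP_a5055e_co.Main

namespace Pool.Agent.Results.MP_a5055e_co.Counter

open Pool.Agent.Work.MP_a5055e_co Filter Asymptotics

/-- The conjectured dichotomy fails: there are admissible `k, t, r` and a family `F` for which
`ex(n, P_t, F)` is not `O(ex(n,F)^(r+2) n^(k-2-r))` and is not `Ω(n^(k+1))`; it is even
`o(n^(k+1))`. -/
theorem result : ∃ (k t r : ℕ) (F : Set (Σ m : ℕ, SimpleGraph (Fin m))),
    2 ≤ k ∧ 2 * k + 1 ≤ t ∧ r ≤ k - 2 ∧ t - 3 ≡ r [MOD k - 1] ∧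
    ¬ ((fun n : ℕ => (exP t F n : ℝ)) =O[atTop]
        fun n : ℕ => (ex F n : ℝ) ^ (r + 2) * (n : ℝ) ^ (k - 2 - r)) ∧
    ¬ ((fun n : ℕ => (n : ℝ) ^ (k + 1)) =O[atTop] fun n : ℕ => (exP t F n : ℝ)) ∧
    (fun n : ℕ => (exP t F n : ℝ)) =o[atTop] fun n : ℕ => (n : ℝ) ^ (k + 1) := by
  refine ⟨8, 24, 0, Fam, by norm_num, by norm_num, by norm_num, by decide, not_bigO, ?_, littleO⟩
  intro h
  refine isLittleO_irrefl ?_ (h.trans_isLittleO littleO)
  refine (eventually_ge_atTop 1).frequently.mono fun n hn => ?_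
  have : (0 : ℝ) < n := by exact_mod_cast hn
  positivity

end Pool.Agent.Results.MP_a5055e_co.Counter
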